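import Pool.Agent.Run7.h135.P24.A.T2
import Pool.Agent.Run7.h135.P24.A.T4
import Pool.Agent.Run7.h135.P15.T5

/-!
# `X_0(24)`: the parity of the number of represented reduced forms (`S_T5`)

Port of `Run7/h135/P15/T5.lean` to level 24.
-/

set_option autoImplicit false

namespace Pool.Agent.Run7.h135.P24.A

open Finset
open Pool.Agent.N969.P15 (V3)
open Pool.Agent.Run7.h135.P15 (Red Rd mem_Red sg am am_spec am_inv)
open Pool.Agent.Run7.h135.P21 (Slk)

theorem PN_neg (a h c : ℤ) : (PN a (-h) c).ncard = (PN a h c).ncard := by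
  have : PN a (-h) c = (fun p : V3 × V3 => (p.1, -p.2)) '' PN a h c := by
    ext p
    constructor
    · rintro ⟨h1, h2, h3⟩
      refine ⟨(p.1, -p.2), ⟨h1, ?_, ?_⟩, by simp⟩
      · simp only
        rw [nn_neg_right, h2, neg_neg]
      · simp only
        rw [nn_neg_neg, h3]
    · rintro ⟨p', ⟨h1, h2, h3⟩, rfl⟩
      refine ⟨h1, ?_, ?_⟩
      · simp only
        rw [nn_neg_right, h2]
      · simp only
        rw [nn_neg_neg, h3]
  rw [this]
  apply Set.ncard_image_of_injective
  rintro ⟨x, y⟩ ⟨x', y'⟩ h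
  simpa using h

theorem t5 (h4a : S_T4a) (h4b : S_T4b) : S_T5 := by
  classical
  intro n hn h4 h5
  have h0 : 0 < n := by omega
  have hodd : n % 2 = 1 := by omega
  have hn3 : ∀ a : ℤ, (n : ℤ) ≠ 3 * a ^ 2 := by
    intro a ha
    have h1 : ((a.natAbs * a.natAbs : ℕ) : ℤ) ∣ (n : ℤ) := by
      rw [ha]
      push_cast
      rw [abs_mul_abs_self]
      exact ⟨3, by ring⟩
    have h2 := hn a.natAbs (by exact_mod_cast h1)
    rw [Nat.isUnit_iff] at h2
    have h5 : a ^ 2 = 1 := by
      rw [← sq_abs, Int.abs_eq_natAbs, h2]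
      norm_num
    rw [h5] at ha
    omega
  set G := (Red n).filter fun q => (PN q.1 q.2.1 q.2.2).ncard ≠ 0 with hG
  let fx : ℤ × ℤ × ℤ → Prop := fun q => |q.2.1| = q.1 ∨ q.1 = q.2.2
  have hsplit : (G.filter fx).card + (G.filter fun q => ¬ fx q).card = G.card :=
    card_filter_add_card_filter_not _
  have hoddh : ∀ q ∈ G, q.2.1 ≠ 0 := by
    intro q hq h
    rw [hG, mem_filter, mem_Red] at hq
    have := hq.1.dd
    rw [h] at this
    have : (n : ℤ) = 2 * (2 * q.1 * q.2.2) := by linear_combination -this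
    omega
  have hmG : ∀ q ∈ G, ¬ fx q → sg q ∈ G ∧ ¬ fx (sg q) := by
    intro q hq hf
    rw [hG, mem_filter, mem_Red] at hq ⊢
    have hf' : ¬ fx (sg q) := by
      simp only [fx, sg, abs_neg] at hf ⊢
      exact hf
    refine ⟨⟨⟨hq.1.a0, ?_, hq.1.ac, ?_, fun h => absurd h hf'⟩, ?_⟩, hf'⟩
    · simp only [sg, abs_neg]
      exact hq.1.ha
    · simp only [sg]
      rw [neg_sq]
      exact hq.1.dd
    · simp only [sg]
      rw [PN_neg]
      exact hq.2
  have heven : Even (G.filter fun q => ¬ fx q).card := by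
    have : ∑ q ∈ G.filter (fun q => ¬ fx q), (1 : ZMod 2) = 0 := by
      refine sum_involution (fun q _ => sg q) ?_ ?_ ?_ ?_
      · intro q _
        decide
      · intro q hq _ h
        rw [mem_filter] at hq
        have h1 := congrArg (fun q : ℤ × ℤ × ℤ => q.2.1) h
        simp only [sg] at h1
        exact hoddh q hq.1 (by omega)
      · intro q hq
        rw [mem_filter] at hq ⊢
        exact hmG q hq.1 hq.2
      · intro q _
        simp [sg]
    rw [sum_const, nsmul_eq_mul, mul_one] at this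
    exact (ZMod.natCast_eq_zero_iff_even).mp this
  have hiff : ∀ b c : ℕ, b * c = n → b < c →
      ((PN (am b c).1 (am b c).2.1 (am b c).2.2).ncard ≠ 0 ↔ Slk 2 b c) := by
    intro b c hbc hlt
    obtain ⟨s1, s2, s3, s4, s5⟩ := am_spec hn3 h4 hbc hlt
    have k1 := h4a n _ _ _ hn hodd s1.a0 s1.dd
    have k2 := h4b n b c _ _ _ hn hodd s1.a0 s1.dd hbc s3 s4
    rw [← k2]
    constructor
    · exact fun h => k1.resolve_left h
    · intro h
      rw [h]
      positivity
  have hcard : (G.filter fx).card = (n.divisors.filter fun b => b < n / b ∧ Slk 2 b (n / b)).card := by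
    symm
    refine card_bij' (fun b _ => am b (n / b : ℕ))
      (fun q _ => if q.2.1 = q.1 then q.1.toNat else (2 * q.1 - q.2.1).toNat) ?_ ?_ ?_ ?_
    · intro b hb
      rw [mem_filter, Nat.mem_divisors] at hb
      obtain ⟨⟨h6, h7⟩, h8, h9⟩ := hb
      have hbc : b * (n / b) = n := Nat.mul_div_cancel' h6
      obtain ⟨s1, s2, s3, s4, s5⟩ := am_spec hn3 h4 hbc h8
      rw [mem_filter, hG, mem_filter, mem_Red]
      exact ⟨⟨s1, (hiff b _ hbc h8).mpr h9⟩, s2⟩
    · intro q hq
      rw [mem_filter, hG, mem_filter, mem_Red] at hq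
      obtain ⟨⟨h6, h7⟩, h8⟩ := hq
      obtain ⟨b, c, hbc, hlt, rfl⟩ := am_inv hn3 hodd h6 h8
      obtain ⟨s1, s2, s3, s4, s5⟩ := am_spec hn3 h4 hbc hlt
      rw [s5, mem_filter, Nat.mem_divisors]
      have hb0 : 0 < b := by
        rcases Nat.eq_zero_or_pos b with rfl | h
        · rw [zero_mul] at hbc
          omega
        · exact h
      have hc : n / b = c := by rw [← hbc, Nat.mul_div_cancel_left _ hb0]
      rw [hc]
      exact ⟨⟨⟨c, hbc.symm⟩, h0.ne'⟩, hlt, (hiff b c hbc hlt).mp h7⟩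
    · intro b hb
      rw [mem_filter, Nat.mem_divisors] at hb
      obtain ⟨⟨h6, h7⟩, h8, h9⟩ := hb
      have hbc : b * (n / b) = n := Nat.mul_div_cancel' h6
      exact (am_spec hn3 h4 hbc h8).2.2.2.2
    · intro q hq
      rw [mem_filter, hG, mem_filter, mem_Red] at hq
      obtain ⟨⟨h6, h7⟩, h8⟩ := hq
      obtain ⟨b, c, hbc, hlt, rfl⟩ := am_inv hn3 hodd h6 h8
      obtain ⟨s1, s2, s3, s4, s5⟩ := am_spec hn3 h4 hbc hlt
      rw [s5]
      have hb0 : 0 < b := by
        rcases Nat.eq_zero_or_pos b with rfl | h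
        · rw [zero_mul] at hbc
          omega
        · exact h
      have hc : n / b = c := by rw [← hbc, Nat.mul_div_cancel_left _ hb0]
      rw [hc]
  rw [← hcard, ← hsplit, Nat.odd_add]
  simp only [heven, iff_true]

/-- the parity of the number of vectors -/
theorem t_r (hF : S_RF) : S_R := r_of hF t2 t_T4a (t5 t_T4a t_T4b)

end Pool.Agent.Run7.h135.P24.A
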