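import Pool.Agent.Run7.h135.P24.A.Lv
import Pool.Agent.Run7.h135.P24.A.CpX

/-!
# The number of pairs of vectors of `ℤ³` with a given Gram matrix by local densities
-/

set_option autoImplicit false

namespace Pool.Agent.Run7.h135.P24.A

open Finset
open Pool.Agent.Z700 (hh fac)
open Pool.Agent.N969.P15 (V3)
open Run7.h238.P (YP card_YP ss conv_eq chi rho RF SQ chi_cases)

/-- the parameters as a sigma type -/
def eqvX {n b : ℤ} {m D : ℤ} (hD : D = 8 * m) : {q // XPq n b D q} ≃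
    Σ t : {t : ℤ × ℤ × ℤ // YP n m t.1 t.2.1 t.2.2},
      {q : ℤ × ℤ // ZP n b t.1.1 t.1.2.1 t.1.2.2 q.1 q.2} where
  toFun q := ⟨⟨(q.1.1, q.1.2.1, q.1.2.2.1), by
    obtain ⟨x0, x1, x2, x3, x4, x5, x6, x7, x8, x9, x10, x11, x12⟩ := q.2
    exact ⟨x0, x1, by linarith, x3, x4, x5⟩⟩, ⟨(q.1.2.2.2.1, q.1.2.2.2.2), by
    obtain ⟨x0, x1, x2, x3, x4, x5, x6, x7, x8, x9, x10, x11, x12⟩ := q.2
    exact ⟨x6, x7, x8, x9, x10, x11, x12⟩⟩⟩
  invFun s := ⟨(s.1.1.1, s.1.1.2.1, s.1.1.2.2, s.2.1.1, s.2.1.2), by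
    obtain ⟨y0, y1, y2, y3, y4, y5⟩ := s.1.2
    obtain ⟨x6, x7, x8, x9, x10, x11, x12⟩ := s.2.2
    exact ⟨y0, y1, by rw [hD]; linear_combination 8 * y2, y3, y4, y5, x6, x7, x8, x9, x10, x11, x12⟩⟩
  left_inv q := rfl
  right_inv s := rfl

theorem finite_ZP (n b e a h : ℤ) : Finite {q : ℤ × ℤ // ZP n b e a h q.1 q.2} := by
  have : Set.Finite {q : ℤ × ℤ | ZP n b e a h q.1 q.2} := by
    refine Set.Finite.subset ((Set.finite_Ico (0 : ℤ) n).prod (Set.finite_Ico (0 : ℤ) (2 * a))) ?_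
    rintro ⟨z, g⟩ x
    exact ⟨⟨x.z0, x.z1⟩, ⟨x.g0, x.g1⟩⟩
  exact this.to_subtype

/-- the local product at the primes of `n` -/
def PL (n D : ℕ) : ℤ := ∏ p ∈ n.primeFactors, if p ∣ D then 1 + hh n D p else 1

theorem card_Z {n : ℕ} (hn : n % 4 = 3) (hs : Squarefree n) {b : ℤ} {m D : ℕ}
    (hD : D = 8 * m) (hb : (n : ℤ) ∣ D + b ^ 2) {e a h : ℤ} (y : YP n m e a h) :
    (Nat.card {q : ℤ × ℤ // ZP n b e a h q.1 q.2} : ℤ) = PL n D := by
  obtain ⟨e0, a0, hm, h0, h1, hh4⟩ := y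
  obtain ⟨e', rfl⟩ := Int.eq_ofNat_of_zero_le e0.le
  obtain ⟨a', rfl⟩ := Int.eq_ofNat_of_zero_le a0.le
  have e0' : 0 < e' := by exact_mod_cast e0
  have a0' : 0 < a' := by exact_mod_cast a0
  have hm' : a' * e' ^ 2 = m := by exact_mod_cast hm
  have hD' : D = 8 * a' * e' ^ 2 := by rw [hD, ← hm']; ring
  have hb' : (n : ℤ) ∣ 8 * (a' : ℤ) * (e' : ℤ) ^ 2 + b ^ 2 := by
    rw [hD'] at hb
    push_cast at hb
    exact hb
  rw [card_ZP hn hs a0 hh4 hb']
  push_cast
  unfold PL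
  refine Finset.prod_congr rfl fun p hp => ?_
  rw [card_LS hn hs a0' e0' hh4 hb' hp, hD']

theorem card_X {n : ℕ} (hn : n % 4 = 3) (hs : Squarefree n) {b : ℤ} {m D : ℕ}
    (hm : 0 < m) (hD : D = 8 * m) (hb : (n : ℤ) ∣ D + b ^ 2) :
    (Nat.card {q // XPq n b D q} : ℤ) =
      (∏ p ∈ m.primeFactors, ss n p (m.factorization p)) * PL n D := by
  have hDz : (D : ℤ) = 8 * (m : ℤ) := by rw [hD]; push_cast; rfl
  rcases isEmpty_or_nonempty {t : ℤ × ℤ × ℤ // YP n m t.1 t.2.1 t.2.2} with hE | ⟨⟨t0⟩⟩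
  · have h1 : Nat.card {q // XPq n b D q} = 0 := by
      rw [Nat.card_congr (eqvX hDz)]
      exact Nat.card_of_isEmpty
    have h2 := card_YP n m hm
    rw [Nat.card_of_isEmpty] at h2
    rw [h1, ← conv_eq hn hs hm.ne', ← h2]
    simp
  · set C := Nat.card {q : ℤ × ℤ // ZP n b t0.1.1 t0.1.2.1 t0.1.2.2 q.1 q.2} with hC
    have hC' : (C : ℤ) = PL n D := card_Z hn hs hD hb t0.2
    have e2 : ∀ t : {t : ℤ × ℤ × ℤ // YP n m t.1 t.2.1 t.2.2},
        Nonempty ({q : ℤ × ℤ // ZP n b t.1.1 t.1.2.1 t.1.2.2 q.1 q.2} ≃ Fin C) := by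
      intro t
      have h1 : Nat.card {q : ℤ × ℤ // ZP n b t.1.1 t.1.2.1 t.1.2.2 q.1 q.2} = C := by
        have := card_Z hn hs hD hb t.2
        rw [← hC'] at this
        exact_mod_cast this
      have := finite_ZP n b t.1.1 t.1.2.1 t.1.2.2
      exact ⟨Finite.equivFinOfCardEq h1⟩
    have e3 : (Σ t : {t : ℤ × ℤ × ℤ // YP n m t.1 t.2.1 t.2.2},
        {q : ℤ × ℤ // ZP n b t.1.1 t.1.2.1 t.1.2.2 q.1 q.2}) ≃
        {t : ℤ × ℤ × ℤ // YP n m t.1 t.2.1 t.2.2} × Fin C :=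
      (Equiv.sigmaCongrRight fun t => (e2 t).some).trans (Equiv.sigmaEquivProd _ _)
    rw [Nat.card_congr ((eqvX hDz).trans e3), Nat.card_prod, Nat.card_eq_fintype_card (α := Fin C),
      Fintype.card_fin]
    push_cast
    rw [hC', card_YP n m hm, conv_eq hn hs hm.ne']

theorem chi_ram {n l : ℕ} (hl : l.Prime) (l2 : l ≠ 2) (h : l ∣ n) : chi n l = 0 := by
  unfold chi
  rw [if_neg l2]
  have : Fact l.Prime := ⟨hl⟩
  rw [← jacobiSym.legendreSym.to_jacobiSym, legendreSym.eq_zero_iff,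
    ZMod.intCast_zmod_eq_zero_iff_dvd]
  exact (dvd_neg).2 (by exact_mod_cast h)

theorem prod_eq {n : ℕ} (hn : n % 4 = 3) (hs : Squarefree n) {m D : ℕ}
    (hm : 0 < m) (hD : D = 8 * m) :
    (∏ p ∈ m.primeFactors, ss n p (m.factorization p)) * PL n D =
      ss n 2 (m.factorization 2) * ∏ l ∈ D.primeFactors.erase 2, fac n D l := by
  have D0 : D ≠ 0 := by omega
  have f20 : Nat.factorization 8 = Finsupp.single 2 3 := by
    have e : 8 = 2 ^ 3 := by norm_num
    rw [e, Nat.prime_two.factorization_pow]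
  have v20 : ∀ l : ℕ, D.factorization l = Nat.factorization 8 l + m.factorization l := by
    intro l
    rw [hD, Nat.factorization_mul (by norm_num) hm.ne']
    rfl
  have hsub : m.primeFactors ⊆ D.primeFactors := by
    rw [hD]
    exact Nat.primeFactors_mono (Dvd.intro_left 8 rfl) (by omega)
  have h2D : 2 ∈ D.primeFactors := Nat.mem_primeFactors.2 ⟨Nat.prime_two, by omega, D0⟩
  have e1 : ∏ p ∈ m.primeFactors, ss n p (m.factorization p) =
      ∏ p ∈ D.primeFactors, ss n p (m.factorization p) := by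
    refine Finset.prod_subset hsub fun p _ hp => ?_
    have : m.factorization p = 0 := Finsupp.notMem_support_iff.1 hp
    rw [this]
    simp [ss]
  rw [e1, ← Finset.mul_prod_erase _ _ h2D]
  have e3 : PL n D = ∏ l ∈ D.primeFactors.erase 2, if l ∣ n then 1 + hh n D l else 1 := by
    unfold PL
    rw [← Finset.prod_filter, ← Finset.prod_filter]
    refine Finset.prod_congr ?_ fun _ _ => rfl
    ext p
    rw [mem_filter, mem_filter, mem_erase]
    constructor
    · rintro ⟨h1, h2⟩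
      have hp := Nat.prime_of_mem_primeFactors h1
      exact ⟨⟨p_ne2 hn h1, Nat.mem_primeFactors.2 ⟨hp, h2, D0⟩⟩, Nat.dvd_of_mem_primeFactors h1⟩
    · rintro ⟨⟨h2, h3⟩, h4⟩
      exact ⟨Nat.mem_primeFactors.2 ⟨Nat.prime_of_mem_primeFactors h3, h4, hs.ne_zero⟩,
        Nat.dvd_of_mem_primeFactors h3⟩
  have e4 : (∏ l ∈ D.primeFactors.erase 2, ss n l (m.factorization l)) * PL n D =
      ∏ l ∈ D.primeFactors.erase 2, fac n D l := by
    rw [e3, ← Finset.prod_mul_distrib]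
    refine Finset.prod_congr rfl fun l hl => ?_
    rw [mem_erase] at hl
    obtain ⟨l2, hl⟩ := hl
    have hlp := Nat.prime_of_mem_primeFactors hl
    have hv : D.factorization l = m.factorization l := by
      rw [v20, f20]
      simp [Ne.symm l2]
    unfold fac
    by_cases hln : l ∣ n
    · rw [if_pos hln, if_pos hln]
      have : ss n l (m.factorization l) = 1 := by
        unfold ss
        rw [chi_ram hlp l2 hln, Finset.sum_range_succ']
        simp
      rw [this, one_mul]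
    · rw [if_neg hln, if_neg hln, mul_one, hv]
      unfold ss chi
      rw [if_neg l2]
  rw [← e4]
  ring

/-! ### the vectors of `ℤ³` -/

theorem mem_vef (n : ℕ) (v : V3) : v ∈ vef n ↔ P24.ip v v = n := by
  unfold vef
  simp only [Finset.mem_filter, Fintype.mem_piFinset, Finset.mem_Icc, and_iff_right_iff_imp]
  intro h i
  have key : ∀ x : ℤ, x ^ 2 ≤ n → -(n : ℤ) ≤ x ∧ x ≤ n := by
    intro x hx
    constructor <;> nlinarith [sq_nonneg (x - 1), sq_nonneg (x + 1)]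
  unfold P24.ip at h
  apply key
  fin_cases i
  · show v 0 ^ 2 ≤ n
    nlinarith [sq_nonneg (v 1), sq_nonneg (v 2)]
  · show v 1 ^ 2 ≤ n
    nlinarith [sq_nonneg (v 0), sq_nonneg (v 2)]
  · show v 2 ^ 2 ≤ n
    nlinarith [sq_nonneg (v 0), sq_nonneg (v 1)]

theorem sq_mod4 (x : ℤ) : (x % 2 = 1 ∧ x * x % 4 = 1) ∨ (x % 2 = 0 ∧ x * x % 4 = 0) := by
  rcases Int.even_or_odd' x with ⟨k, rfl | rfl⟩
  · right
    refine ⟨by omega, ?_⟩
    have : 2 * k * (2 * k) = 4 * (k * k) := by ring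
    omega
  · left
    refine ⟨by omega, ?_⟩
    have : (2 * k + 1) * (2 * k + 1) = 4 * (k * k + k) + 1 := by ring
    omega

theorem odd_coord {v : V3} (h : P24.ip v v % 4 = 3) : v 0 % 2 = 1 ∧ v 1 % 2 = 1 ∧ v 2 % 2 = 1 := by
  unfold P24.ip at h
  rcases sq_mod4 (v 0) with h0 | h0 <;> rcases sq_mod4 (v 1) with h1 | h1 <;>
    rcases sq_mod4 (v 2) with h2 | h2 <;> omega

/-- the coordinates -/
def TT (v : V3) : V3 := ![v 0 + 2 * v 1 + v 2, v 0 + v 2, v 0 - v 2]

theorem TT0 (v : V3) : TT v 0 = v 0 + 2 * v 1 + v 2 := rfl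
theorem TT1 (v : V3) : TT v 1 = v 0 + v 2 := rfl
theorem TT2 (v : V3) : TT v 2 = v 0 - v 2 := rfl

theorem ip_TT (v w : V3) : P24.ip (TT v) (TT w) = ip v w := by
  simp only [P24.ip, ip, TT0, TT1, TT2]
  ring

theorem TT_inj : Function.Injective TT := by
  intro v w h
  have h0 := congrFun h 0
  have h1 := congrFun h 1
  have h2 := congrFun h 2
  rw [TT0, TT0] at h0
  rw [TT1, TT1] at h1
  rw [TT2, TT2] at h2
  exact ext3 (by omega) (by omega) (by omega)

theorem TT_surj {w : V3} (h : P24.ip w w % 4 = 3) : ∃ v, TT v = w := by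
  obtain ⟨h0, h1, h2⟩ := odd_coord h
  refine ⟨![(w 1 + w 2) / 2, (w 0 - w 1) / 2, (w 1 - w 2) / 2], ext3 ?_ ?_ ?_⟩
  · rw [TT0]
    simp only [Matrix.cons_val_zero, Matrix.cons_val_one, Matrix.cons_val]
    omega
  · rw [TT1]
    simp only [Matrix.cons_val_zero, Matrix.cons_val]
    omega
  · rw [TT2]
    simp only [Matrix.cons_val_zero, Matrix.cons_val]
    omega

theorem cpf_eq {n n2 : ℕ} (h1 : n % 4 = 3) (h2 : n2 % 4 = 3) (b : ℤ) :
    cpf n b n2 = Nat.card (PSt n b n2) := by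
  have hm : ∀ q : PSt n b n2, (TT q.1.1, TT q.1.2) ∈
      (vef n ×ˢ vef n2).filter fun q => P24.ip q.1 q.2 = b := by
    intro q
    rw [mem_filter, mem_product, mem_vef, mem_vef, ip_TT, ip_TT, ip_TT]
    exact ⟨⟨q.2.1, q.2.2.1⟩, q.2.2.2⟩
  have hb : Function.Bijective (fun q : PSt n b n2 => (⟨_, hm q⟩ :
      ((vef n ×ˢ vef n2).filter fun q => P24.ip q.1 q.2 = b : Finset _))) := by
    constructor
    · intro q q' he
      have h3 := congrArg Subtype.val he
      apply Subtype.ext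
      exact Prod.ext (TT_inj (congrArg Prod.fst h3)) (TT_inj (congrArg Prod.snd h3))
    · rintro ⟨⟨w, w'⟩, hw⟩
      have hw' := hw
      rw [mem_filter, mem_product, mem_vef, mem_vef] at hw
      obtain ⟨⟨k1, k2⟩, k3⟩ := hw
      dsimp only at k1 k2 k3
      obtain ⟨v, rfl⟩ := TT_surj (w := w) (by rw [k1]; omega)
      obtain ⟨v', rfl⟩ := TT_surj (w := w') (by rw [k2]; omega)
      rw [ip_TT] at k1 k2 k3
      exact ⟨⟨(v, v'), k1, k2, k3⟩, rfl⟩
  rw [Nat.card_congr (Equiv.ofBijective _ hb), Nat.card_eq_fintype_card, Fintype.card_coe]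
  rfl

theorem pcf : S_PCF := by
  intro n n2 b D hs hn hn2 hb hD hDD
  have h4 : n % 4 = 3 := by omega
  have hbn : (n : ℤ) ∣ D + b ^ 2 := ⟨n2, by rw [hDD]; ring⟩
  obtain ⟨m, hm⟩ : 8 ∣ D := by
    obtain ⟨c, rfl⟩ := hb
    obtain ⟨k, hk⟩ : ∃ k, n = 8 * k + 3 := ⟨n / 8, by omega⟩
    obtain ⟨k2, hk2⟩ : ∃ k2, n2 = 8 * k2 + 3 := ⟨n2 / 8, by omega⟩
    have hc : ∃ s, c * (c + 1) = 2 * s := by
      obtain ⟨s, hs⟩ := Int.even_mul_succ_self c
      exact ⟨s, by omega⟩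
    obtain ⟨s, hs⟩ := hc
    have : (8 : ℤ) ∣ D := by
      refine ⟨8 * k * k2 + 3 * k + 3 * k2 + 1 - s, ?_⟩
      rw [hDD, hk, hk2]
      push_cast
      linear_combination -4 * hs
    exact_mod_cast this
  have m0 : 0 < m := by omega
  rw [cpf_eq h4 (by omega), card_PSt n n2 b D hs hD hDD]
  push_cast
  have hX := card_X h4 hs m0 hm hbn
  rw [prod_eq h4 hs m0 hm] at hX
  rw [hX]
  have v2 : D.factorization 2 = m.factorization 2 + 3 := by
    rw [hm, Nat.factorization_mul (by norm_num) m0.ne']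
    have f20 : Nat.factorization 8 2 = 3 := by
      have e : 8 = 2 ^ 3 := by norm_num
      rw [e, Nat.prime_two.factorization_pow]
      simp
    rw [Finsupp.add_apply, f20]
    ring
  have hchi : chi n 2 = -1 := by
    unfold chi
    rw [if_pos rfl, if_neg (by omega)]
  have hss : ss n 2 (m.factorization 2) = if Odd (D.factorization 2) then 1 else 0 := by
    unfold ss
    rw [hchi, v2]
    generalize m.factorization 2 = k
    induction k with
    | zero => simp [show Odd 3 from ⟨1, rfl⟩]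
    | succ k ih =>
      rw [Finset.sum_range_succ, ih]
      rcases Nat.even_or_odd k with hk | hk
      · have h1 : Odd (k + 1) := hk.add_one
        have h2 : Odd (k + 3) := by
          obtain ⟨t, ht⟩ := hk
          exact ⟨t + 1, by omega⟩
        have h3 : ¬ Odd (k + 1 + 3) := by
          rw [Nat.not_odd_iff_even]
          obtain ⟨t, ht⟩ := hk
          exact ⟨t + 2, by omega⟩
        rw [if_pos h2, if_neg h3, h1.neg_one_pow]
        norm_num
      · have h1 : Even (k + 1) := hk.add_one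
        have h2 : ¬ Odd (k + 3) := by
          rw [Nat.not_odd_iff_even]
          obtain ⟨t, ht⟩ := hk
          exact ⟨t + 2, by omega⟩
        have h3 : Odd (k + 1 + 3) := by
          obtain ⟨t, ht⟩ := hk
          exact ⟨t + 2, by omega⟩
        rw [if_neg h2, if_pos h3, h1.neg_one_pow]
        norm_num
  rw [hss]
  unfold loc
  split_ifs <;> simp

end Pool.Agent.Run7.h135.P24.A
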