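import Pool.Agent.Run7.h135.P15.RStm
import Pool.Agent.Run7.h135.P21.T7
import Pool.Agent.Run7.h135.P24.A.Pcf

/-!
# `X_0(24)`: the parity of the number of vectors (`S_R`): definitions and statements of the parts

`N` is the root lattice `A₃` (inner product `nn`), its dual scaled by four is the lattice of the
vectors of `ℤ³` with coordinates of equal parity (inner product `ip`). The kernel in `N` of a vector
`v` of squarefree norm `n ≡ 3 mod 8` is a binary form of discriminant `-n`.
-/

set_option autoImplicit false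

namespace Pool.Agent.Run7.h135.P24.A

open Finset
open Pool.Agent.N969.P15 (V3 Qc)
open Pool.Agent.Run7.h135.P15 (Red)
open Pool.Agent.Run7.h135.P21 (Slk t7g)

/-- the vectors of norm `n` in the coordinates of the lattice -/
noncomputable def VA (n : ℤ) : Finset V3 := (vef n).preimage TT TT_inj.injOn

theorem mem_VA (n : ℕ) (v : V3) : v ∈ VA n ↔ ip v v = n := by
  rw [VA, Finset.mem_preimage, mem_vef, ip_TT]

theorem card_VA {n : ℕ} (hn : n % 4 = 3) : ((VA n).card : ℤ) = rf n := by
  classical
  have h : (VA n).image TT = vef n := by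
    ext w
    rw [mem_image]
    constructor
    · rintro ⟨v, hv, rfl⟩
      exact Finset.mem_preimage.mp hv
    · intro hw
      have hw' := (mem_vef n w).mp hw
      obtain ⟨v, rfl⟩ := TT_surj (w := w) (by rw [hw']; omega)
      exact ⟨v, Finset.mem_preimage.mpr hw, rfl⟩
  rw [rf, ← h, card_image_of_injective _ TT_inj]

/-- the pairs of vectors of `N` with Gram matrix `(2 a, h; h, 2 c)` -/
def PN (a h c : ℤ) : Set (V3 × V3) :=
  {q | nn q.1 q.1 = 2 * a ∧ nn q.1 q.2 = h ∧ nn q.2 q.2 = 2 * c}

/-- T2: every vector has exactly two oriented bases of its kernel with reduced Gram matrix -/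
def S_T2 : Prop := ∀ n : ℕ, Squarefree n → n % 4 = 3 → n ≠ 3 →
  2 * rf n = ∑ q ∈ Red n, ((PN q.1 q.2.1 q.2.2).ncard : ℤ)

/-- T3: the number of representations of a binary form whose first coefficient is prime to `n` -/
def S_T3 : Prop := ∀ (n : ℕ) (a h c : ℤ), Squarefree n → n % 2 = 1 → 0 < a →
  4 * a * c - h ^ 2 = n → IsCoprime a (n : ℤ) →
  (PN a h c).ncard = 24 * ((range n).filter fun y : ℕ => (n : ℤ) ∣ a * (y : ℤ) ^ 2 + 2).card

/-- T4a: the number of representations of a binary form by `N` -/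
def S_T4a : Prop := ∀ (n : ℕ) (a h c : ℤ), Squarefree n → n % 2 = 1 → 0 < a →
  4 * a * c - h ^ 2 = n →
  (PN a h c).ncard = 0 ∨ (PN a h c).ncard = 24 * 2 ^ n.primeFactors.card

/-- T4b: the same with the condition, for a form which represents `b` and `c'`, `b c' = n` -/
def S_T4b : Prop := ∀ (n b c' : ℕ) (a h c : ℤ), Squarefree n → n % 2 = 1 → 0 < a →
  4 * a * c - h ^ 2 = n → b * c' = n → (∃ r s : ℤ, a * r ^ 2 + h * r * s + c * s ^ 2 = b) →
  (∃ r s : ℤ, a * r ^ 2 + h * r * s + c * s ^ 2 = c') →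
  ((PN a h c).ncard = 24 * 2 ^ n.primeFactors.card ↔ Slk 2 b c')

open Classical in
/-- T5: the parity of the number of represented reduced forms -/
def S_T5 : Prop := ∀ n : ℕ, Squarefree n → n % 4 = 3 → n ≠ 3 →
  (Odd ((Red n).filter fun q => (PN q.1 q.2.1 q.2.2).ncard ≠ 0).card ↔
    Odd (n.divisors.filter fun b => b < n / b ∧ Slk 2 b (n / b)).card)

theorem jac2 {n : ℕ} (h8 : n % 8 = 3) : jacobiSym (-((2 : ℕ) : ℤ)) n = 1 := by
  have hodd : Odd n := Nat.odd_iff.mpr (by omega)
  have e1 : jacobiSym (-((2 : ℕ) : ℤ)) n = jacobiSym (-1) n * jacobiSym 2 n := by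
    rw [← jacobiSym.mul_left]
    congr 1
  have e2 : jacobiSym (-1) n = -1 := by
    rw [jacobiSym.at_neg_one hodd, ZMod.χ₄_nat_three_mod_four (by omega)]
  have e3 : jacobiSym 2 n = -1 := by
    rw [jacobiSym.at_two hodd, ZMod.χ₈_nat_eq_if_mod_eight, if_neg (by omega), if_neg (by omega)]
  rw [e1, e2, e3]
  norm_num

theorem rr_three : rr 3 = 1 := by
  have h : vec 3 = {![1, 1, 1]} := by
    ext v
    rw [vec, mem_filter, mem_singleton]
    have hm := mem_vef 3 v
    push_cast at hm
    rw [hm]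
    constructor
    · rintro ⟨h1, h2, h3, h4⟩
      unfold P24.ip at h1
      have key : ∀ x : ℤ, x % 4 = 1 → 1 ≤ x * x ∧ (x * x ≤ 1 → x = 1) := by
        intro x hx
        have h4 : 1 ≤ x * x := by
          rcases (show x ≤ -1 ∨ 1 ≤ x by omega) with h | h
          · nlinarith
          · nlinarith
        refine ⟨h4, fun h => ?_⟩
        have h5 : x ≤ 1 := by nlinarith
        have h6 : -1 ≤ x := by nlinarith
        omega
      obtain ⟨a0, b0⟩ := key _ h2
      obtain ⟨a1, b1⟩ := key _ h3
      obtain ⟨a2, b2⟩ := key _ h4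
      exact ext3 (b0 (by omega)) (b1 (by omega)) (b2 (by omega))
    · rintro rfl
      decide
  rw [rr, h, card_singleton]
  rfl

theorem r_of (hF : S_RF) (h2 : S_T2) (h4 : S_T4a) (h5 : S_T5) : S_R := by
  classical
  intro n hn h8
  have h4' : n % 4 = 3 := by omega
  have t7 := t7g (k := 2) hn h4' (Nat.coprime_two_left.mpr (Nat.odd_iff.mpr (by omega))) (jac2 h8)
  by_cases hn3 : n = 3
  · subst hn3
    have hp : Nat.primeFactors 3 = {3} := Nat.Prime.primeFactors Nat.prime_three
    refine ⟨1, ?_, ?_⟩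
    · have := rr_three
      push_cast
      rw [this, hp]
      rfl
    · rw [← t7]
      have hd : (Nat.divisors 3).filter (fun b => b < 3 / b ∧ Slk 2 b (3 / b)) = {1} := by
        have hdv : Nat.divisors 3 = {1, 3} := by decide
        have h1 : (1 : ℕ) < 3 / 1 ∧ Slk 2 1 (3 / 1) := by
          refine ⟨by norm_num, ?_, ?_⟩
          · intro p hp'
            rw [show (3 / 1 : ℕ) = 3 by norm_num, hp, mem_singleton] at hp'
            subst hp'
            norm_num
          · intro p hp'
            simp at hp'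
        have h3 : ¬ ((3 : ℕ) < 3 / 3 ∧ Slk 2 3 (3 / 3)) := by
          rintro ⟨h, -⟩
          norm_num at h
        rw [hdv, filter_insert, if_pos h1, filter_singleton, if_neg h3]
        rfl
      rw [hd]
      simp
  set G := (Red n).filter fun q => (PN q.1 q.2.1 q.2.2).ncard ≠ 0 with hG
  have hsum : ∑ q ∈ Red n, ((PN q.1 q.2.1 q.2.2).ncard : ℤ) =
      G.card * (24 * 2 ^ n.primeFactors.card) := by
    have e1 : ∑ q ∈ Red n, ((PN q.1 q.2.1 q.2.2).ncard : ℤ) =
        ∑ q ∈ G, ((PN q.1 q.2.1 q.2.2).ncard : ℤ) := by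
      rw [hG, sum_filter]
      apply sum_congr rfl
      intro q _
      split_ifs with h
      · rfl
      · push Not at h
        rw [h]
        rfl
    rw [e1]
    have e2 : ∀ q ∈ G, ((PN q.1 q.2.1 q.2.2).ncard : ℤ) = 24 * 2 ^ n.primeFactors.card := by
      intro q hq
      rw [hG, mem_filter] at hq
      obtain ⟨q1, q2⟩ := hq
      rw [Red, mem_filter, mem_product, mem_product, mem_Icc] at q1
      obtain ⟨⟨⟨q3, q4⟩, q5⟩, q6, q7, q8, q9⟩ := q1
      have := (h4 n q.1 q.2.1 q.2.2 hn (by omega) (by omega) q8).resolve_left q2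
      rw [this]
      push_cast
      ring
    rw [sum_congr rfl e2, sum_const, nsmul_eq_mul]
  refine ⟨3 * G.card, ?_, ?_⟩
  · have h6 := h2 n hn h4' hn3
    rw [hsum, hF n h8] at h6
    linarith
  · rw [Int.odd_mul]
    have h3'' : Odd (3 : ℤ) := by decide
    rw [← t7, ← h5 n hn h4' hn3]
    simp only [h3'', true_and]
    rw [Int.odd_coe_nat]

end Pool.Agent.Run7.h135.P24.A
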