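import Pool.Agent.Run7.h135.P24.A.RStm

/-!
# The number of representations of a binary form whose first coefficient is prime to `n`
-/

set_option autoImplicit false

namespace Pool.Agent.Run7.h135.P24.A

open Matrix
open Pool.Agent.N969.P15 (V3)
open Pool.Agent.Run7.h135.P21 (Slk)

/-- the Gram matrix of a normalized frame -/
def MY (n a h c y : ℤ) : M3 := !![2 * a, h, 0; h, 2 * c, y; 0, y, 2 * ((a * y ^ 2 + 2) / n)]

/-- the condition on `y` -/
def YY (n a y : ℤ) : Prop := 0 ≤ y ∧ y < n ∧ n ∣ a * y ^ 2 + 2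

/-- the frames -/
def FY (n a h c : ℤ) : Type := {q : ℤ × M3 //
  YY n a q.1 ∧ q.2 * NN * q.2ᵀ = MY n a h c q.1 ∧ q.2.det = 1}

theorem MY_gd {n a h c y : ℤ} (a0 : 0 < a) (n0 : 0 < n) (hn : 4 * a * c - h ^ 2 = n)
    (hy : n ∣ a * y ^ 2 + 2) : Gd (MY n a h c y) := by
  have k := Int.mul_ediv_cancel' hy
  exact Gd_of (z := 2 * a * y) (n := n) a0 n0 (by linarith) (by ring) (by
    linear_combination 4 * a * k)

theorem card_FY {n a h c : ℤ} (a0 : 0 < a) (n0 : 0 < n) (hn : 4 * a * c - h ^ 2 = n) :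
    Nat.card (FY n a h c) = Nat.card {y // YY n a y} * 24 := by
  have e1 : FY n a h c ≃ Σ x : {y // YY n a y}, {A : M3 // A * NN * Aᵀ = MY n a h c x.1 ∧ A.det = 1} :=
    { toFun := fun q => ⟨⟨q.1.1, q.2.1⟩, ⟨q.1.2, q.2.2⟩⟩
      invFun := fun s => ⟨(s.1.1, s.2.1), s.1.2, s.2.2⟩
      left_inv := fun q => rfl
      right_inv := fun s => rfl }
  have e2 : ∀ x : {y // YY n a y},
      Nonempty ({A : M3 // A * NN * Aᵀ = MY n a h c x.1 ∧ A.det = 1} ≃ Fin 24) := by
    intro x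
    have h1 : Nat.card {A : M3 // A * NN * Aᵀ = MY n a h c x.1 ∧ A.det = 1} = 24 :=
      card_frames (MY_gd a0 n0 hn x.2.2.2)
    have : Finite {A : M3 // A * NN * Aᵀ = MY n a h c x.1 ∧ A.det = 1} :=
      Nat.finite_of_card_ne_zero (by rw [h1]; norm_num)
    exact ⟨Finite.equivFinOfCardEq h1⟩
  have e3 : (Σ x : {y // YY n a y}, {A : M3 // A * NN * Aᵀ = MY n a h c x.1 ∧ A.det = 1}) ≃
      {y // YY n a y} × Fin 24 :=
    (Equiv.sigmaCongrRight fun x => (e2 x).some).trans (Equiv.sigmaEquivProd _ _)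
  rw [Nat.card_congr (e1.trans e3), Nat.card_prod, Nat.card_eq_fintype_card (α := Fin 24),
    Fintype.card_fin]

theorem MY_entries {n a h c y : ℤ} {A : M3} (hA : A * NN * Aᵀ = MY n a h c y) :
    nn (A 0) (A 0) = 2 * a ∧ nn (A 0) (A 1) = h ∧ nn (A 0) (A 2) = 0 ∧
      nn (A 1) (A 1) = 2 * c ∧ nn (A 1) (A 2) = y ∧
      nn (A 2) (A 2) = 2 * ((a * y ^ 2 + 2) / n) := by
  have g := fun i j => (gram_entry A i j).symm.trans (congrFun (congrFun hA i) j)
  exact ⟨g 0 0, g 0 1, g 0 2, g 1 1, g 1 2, g 2 2⟩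

/-- the first two vectors of the frame -/
def PhiY {n a h c : ℤ} (q : FY n a h c) : PN a h c :=
  ⟨(q.1.2 0, q.1.2 1), by
    obtain ⟨h00, h01, h02, h11, h12, h22⟩ := MY_entries q.2.2.1
    exact ⟨h00, h01, h11⟩⟩

theorem cop_h {n a h c : ℤ} (hodd : ¬ 2 ∣ n) (hn : 4 * a * c - h ^ 2 = n) (hco : IsCoprime a n) :
    IsCoprime (2 * a) h := by
  have h1 : IsCoprime a (h ^ 2) := by
    obtain ⟨u, v, huv⟩ := hco
    exact ⟨u + v * (4 * c), -v, by rw [← hn] at huv; linear_combination huv⟩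
  have h2 : IsCoprime (2 : ℤ) (h ^ 2) := by
    refine (Prime.coprime_iff_not_dvd Int.prime_two).2 ?_
    intro h3
    apply hodd
    rw [← hn]
    have : (2 : ℤ) ∣ 4 * a * c := ⟨2 * a * c, by ring⟩
    exact dvd_sub this h3
  exact (IsCoprime.pow_right_iff (by norm_num : 0 < 2)).1 (IsCoprime.mul_left h2 h1)

theorem PhiY_inj {n a h c : ℤ} (a0 : 0 < a) (hodd : ¬ 2 ∣ n) (hn : 4 * a * c - h ^ 2 = n)
    (hco : IsCoprime a n) : Function.Injective (PhiY (n := n) (a := a) (h := h) (c := c)) := by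
  rintro ⟨⟨y, A⟩, ⟨y0, y1, y2⟩, hA, hd⟩ ⟨⟨y', A'⟩, ⟨y0', y1', y2'⟩, hA', hd'⟩ heq
  have h1 : A 0 = A' 0 := congrArg (fun q => q.1.1) heq
  have h2 : A 1 = A' 1 := congrArg (fun q => q.1.2) heq
  change A * NN * Aᵀ = MY n a h c y at hA
  change A' * NN * A'ᵀ = MY n a h c y' at hA'
  change A.det = 1 at hd
  change A'.det = 1 at hd'
  dsimp only at y0 y1 y2 y0' y1' y2'
  obtain ⟨h00, h01, h02, h11, h12, h22⟩ := MY_entries hA
  obtain ⟨h00', h01', h02', h11', h12', h22'⟩ := MY_entries hA'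
  rw [det_tp] at hd hd'
  obtain ⟨s, t, hst⟩ : ∃ s t : ℤ, A' 2 = A 2 + s • A 0 + t • A 1 := by
    refine ⟨dt (A' 2 - A 2) (cr (A 1) (A 2)), dt (A' 2 - A 2) (cr (A 2) (A 0)), ?_⟩
    have e1 := bas_exp hd (A' 2 - A 2)
    have e2 : dt (A' 2 - A 2) (cr (A 0) (A 1)) = 0 := by
      have f1 := hd
      have f2 := hd'
      rw [← h1, ← h2] at f2
      simp only [tp, dt, Pi.sub_apply] at f1 f2 ⊢
      linarith
    rw [e2, zero_smul, add_zero] at e1
    rw [add_assoc, ← e1]
    abel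
  have k1 : 2 * a * s + h * t = 0 := by
    have h3 : nn (A 0) (A' 2) = 0 := by rw [h1]; exact h02'
    rw [hst, nn_add, nn_add, h02, h00, h01] at h3
    linarith
  have k2 : y' = y + h * s + 2 * c * t := by
    have h3 : nn (A 1) (A' 2) = y' := by rw [h2]; exact h12'
    rw [hst, nn_add, nn_add, h12, h11, nn_comm (A 1) (A 0), h01] at h3
    linarith
  obtain ⟨k, hk⟩ : h ∣ s := by
    have h3 : h ∣ 2 * a * s := ⟨-t, by linarith⟩
    exact (cop_h hodd hn hco).symm.dvd_of_dvd_mul_left h3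
  have ht : t = -(2 * a) * k := by
    by_cases hh0 : h = 0
    · exfalso
      rw [hh0] at hn
      apply hodd
      exact ⟨2 * a * c, by linarith⟩
    · have h3 : h * t = h * (-(2 * a) * k) := by
        rw [hk] at k1
        linarith
      exact mul_left_cancel₀ hh0 h3
  have k3 : y' = y + (-k) * n := by
    rw [k2, hk, ht, ← hn]
    ring
  have k0 : -k = 0 := zero_of_range y0 y1 y0' y1' k3
  have k00 : k = 0 := by omega
  have s0 : s = 0 := by rw [hk, k00, mul_zero]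
  have t0 : t = 0 := by rw [ht, k00, mul_zero]
  rw [s0, t0, zero_smul, zero_smul, add_zero, add_zero] at hst
  have eA : A = A' := by
    funext i
    fin_cases i
    · exact h1
    · exact h2
    · exact hst.symm
  have ey : y = y' := by rw [k3, k0]; ring
  clear heq
  subst eA
  subst ey
  rfl

theorem PhiY_surj {n a h c : ℤ} (hs : Squarefree n) (n0 : 0 < n) (a0 : 0 < a) (hodd : ¬ 2 ∣ n)
    (hn : 4 * a * c - h ^ 2 = n) (hco : IsCoprime a n) :
    Function.Surjective (PhiY (n := n) (a := a) (h := h) (c := c)) := by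
  rintro ⟨⟨x, y⟩, hx, hxy, hy⟩
  dsimp only at hx hxy hy
  have hv : ip (cr x y) (cr x y) = n := by
    rw [ip_cr, nn_comm y x, hx, hy, hxy, ← hn]
    ring
  have v0 : cr x y ≠ 0 := by
    intro h0
    rw [h0] at hv
    simp [ip] at hv
    omega
  obtain ⟨d, d0, v', c2, e1, hc2⟩ := prim_dec _ v0
  have d1 : d = 1 := by
    have h1 : n = d * d * ip v' v' := by
      rw [← hv, e1]
      simp only [ip, Pi.smul_apply, smul_eq_mul]
      ring
    have h2 := hs d ⟨_, h1⟩
    rcases Int.isUnit_iff.1 h2 with h3 | h3 <;> omega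
  subst d1
  rw [one_smul] at e1
  rw [← e1] at hc2
  obtain ⟨u, w, huw⟩ := cop_h hodd hn hco
  set g0 := nn x c2 with hg0
  set w1 : V3 := c2 + (-(g0 * u)) • x + (-(g0 * w)) • y with hw1
  have n1 : nn x w1 = 0 := by
    rw [hw1, nn_add, nn_add, hx, hxy, ← hg0]
    linear_combination (-g0) * huw
  set k := nn y w1 / n with hk
  set w2 : V3 := w1 + (k * h) • x + (-(2 * a * k)) • y with hw2
  have n2 : nn x w2 = 0 := by
    rw [hw2, nn_add, nn_add, n1, hx, hxy]
    ring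
  have n3 : nn y w2 = nn y w1 % n := by
    rw [hw2, nn_add, nn_add, nn_comm y x, hxy, hy, Int.emod_def, ← hk, ← hn]
    ring
  have htp : tp x y w2 = 1 := by
    have h1 : tp x y w2 = dt (cr x y) c2 := by
      simp only [tp, hw1, hw2, dt, Pi.add_apply, Pi.smul_apply, smul_eq_mul, cr0, cr1, cr2]
      ring
    rw [h1, ← hc2]
    simp only [dt]
    ring
  obtain ⟨c', hc'⟩ := even_nn w2
  set Y := nn y w1 % n with hY
  have hdet : (Matrix.of ![x, y, w2] : M3).det = 1 := by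
    rw [det_tp]
    exact htp
  have hG : (Matrix.of ![x, y, w2] : M3) * NN * (Matrix.of ![x, y, w2] : M3)ᵀ =
      !![2 * a, h, 0; h, 2 * c, Y; 0, Y, 2 * c'] := by
    ext i j
    rw [gram_entry]
    fin_cases i <;> fin_cases j
    · exact hx
    · exact hxy
    · exact n2
    · exact (nn_comm _ _).trans hxy
    · exact hy
    · exact n3
    · exact (nn_comm _ _).trans n2
    · exact (nn_comm _ _).trans n3
    · exact hc'
  have hdet2 : (!![2 * a, h, 0; h, 2 * c, Y; 0, Y, 2 * c'] : M3).det = 4 := by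
    rw [← hG, Matrix.det_mul, Matrix.det_mul, Matrix.det_transpose, hdet]
    decide
  rw [Matrix.det_fin_three] at hdet2
  simp only [Matrix.of_apply, Matrix.cons_val_zero, Matrix.cons_val_one, Matrix.cons_val] at hdet2
  have k1 : a * Y ^ 2 + 2 = n * c' := by
    rw [← hn]
    linarith
  have hYY : YY n a Y := ⟨Int.emod_nonneg _ n0.ne', Int.emod_lt_of_pos _ n0, c', k1⟩
  have hM : (Matrix.of ![x, y, w2] : M3) * NN * (Matrix.of ![x, y, w2] : M3)ᵀ = MY n a h c Y := by
    rw [hG]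
    unfold MY
    rw [k1, Int.mul_ediv_cancel_left _ n0.ne']
  exact ⟨⟨(Y, Matrix.of ![x, y, w2]), hYY, hM, hdet⟩, rfl⟩

theorem card_PN {n a h c : ℤ} (hs : Squarefree n) (n0 : 0 < n) (a0 : 0 < a) (hodd : ¬ 2 ∣ n)
    (hn : 4 * a * c - h ^ 2 = n) (hco : IsCoprime a n) :
    (PN a h c).ncard = 24 * Nat.card {y // YY n a y} := by
  have h1 : Nat.card (FY n a h c) = Nat.card (PN a h c) :=
    Nat.card_congr (Equiv.ofBijective PhiY ⟨PhiY_inj a0 hodd hn hco, PhiY_surj hs n0 a0 hodd hn hco⟩)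
  rw [← Nat.card_coe_set_eq, ← h1, card_FY a0 n0 hn, mul_comm]

theorem card_YY (n : ℕ) (a : ℤ) :
    Nat.card {y // YY n a y} = ((Finset.range n).filter fun y : ℕ => (n : ℤ) ∣ a * (y : ℤ) ^ 2 + 2).card := by
  rw [← Fintype.card_coe, ← Nat.card_eq_fintype_card]
  refine Nat.card_congr
    { toFun := fun q => ⟨q.1.toNat, by
        obtain ⟨h0, h1, h2⟩ := q.2
        rw [Finset.mem_filter, Finset.mem_range, Int.toNat_of_nonneg h0]
        exact ⟨by omega, h2⟩⟩
      invFun := fun q => ⟨(q.1 : ℤ), by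
        have h := q.2
        rw [Finset.mem_filter, Finset.mem_range] at h
        exact ⟨by positivity, by exact_mod_cast h.1, h.2⟩⟩
      left_inv := fun q => by
        apply Subtype.ext
        exact Int.toNat_of_nonneg q.2.1
      right_inv := fun q => by
        apply Subtype.ext
        exact Int.toNat_natCast _ }

theorem t_T3 : S_T3 := by
  intro n a h c hs hodd a0 hn hco
  have n0 : (0 : ℤ) < n := by
    have := Nat.pos_of_ne_zero hs.ne_zero
    exact_mod_cast this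
  rw [card_PN (Int.squarefree_natCast.2 hs) n0 a0 (by omega) hn hco, card_YY]

end Pool.Agent.Run7.h135.P24.A
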